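import Pool.Agent.helper23.CO.SpecB

/-!
# co:BXP — boxes: translation and product structure
-/

set_option autoImplicit false

open Finset Filter Topology

namespace CO

open CU

/-- the shift of configurations -/
def BXP_sh {d n : ℕ} (a : Site d n) : Conf d n ≃ Conf d n where
  toFun σ := fun z => σ (z + a)
  invFun σ := fun z => σ (z - a)
  left_inv σ := by
    funext z
    simp only [sub_add_cancel]
  right_inv σ := by
    funext z
    simp only [add_sub_cancel_right]

/-- the shift of edges -/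
def BXP_es {d n : ℕ} (a : Site d n) : Edge d n ≃ Edge d n where
  toFun e := (e.1 + a, e.2)
  invFun e := (e.1 - a, e.2)
  left_inv e := by
    simp only [add_sub_cancel_right]
  right_inv e := by
    simp only [sub_add_cancel]

theorem BXP_brk {d n : ℕ} [NeZero n] (a : Site d n) (σ : Conf d n) : (brk (BXP_sh a σ)).card = (brk σ).card := by
  refine Finset.card_equiv (BXP_es a) fun e => ?_
  unfold brk
  rw [mem_filter, mem_filter]
  refine and_congr ⟨fun _ => mem_univ _, fun _ => mem_univ _⟩ ?_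
  show (σ (e.1 + a) ≠ σ (e.1 + ev e.2 + a)) ↔ (σ (e.1 + a) ≠ σ (e.1 + a + ev e.2))
  rw [add_right_comm e.1 a (ev e.2)]

theorem BXP_W {d n : ℕ} [NeZero n] (β : ℝ) (a : Site d n) (σ : Conf d n) : W β (BXP_sh a σ) = W β σ := by
  unfold W
  rw [BXP_brk]

theorem BXP_mem {d n : ℕ} [NeZero n] (L : ℕ) (x : Site d n) (σ : Conf d n) :
    σ ∈ PlusOn (Box L x) ↔ BXP_sh x σ ∈ PlusOn (Box L 0) := by
  unfold PlusOn Box
  simp only [mem_filter, mem_univ, true_and]
  have hN : ∀ z : Site d n, Near L 0 z ↔ Near L x (z + x) := by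
    intro z
    unfold Near
    refine forall_congr' fun k => ?_
    rw [Pi.zero_apply, sub_zero, Pi.add_apply, add_sub_cancel_right]
  constructor
  · intro h z hz
    exact h (z + x) fun h2 => hz ((hN z).2 h2)
  · intro h z hz
    have h1 := h (z - x) fun h2 => hz (by
      have := (hN (z - x)).1 h2
      rwa [sub_add_cancel] at this)
    have h2 : BXP_sh x σ (z - x) = σ (z - x + x) := rfl
    rwa [h2, sub_add_cancel] at h1

theorem BXP_tr {d n : ℕ} [NeZero n] (L : ℕ) (β : ℝ) (x : Site d n) :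
    ExD β (Box L x) (fun σ => sg (σ x)) = ExD β (Box L 0) (fun σ : Conf d n => sg (σ 0)) := by
  unfold ExD
  have h1 : (∑ σ ∈ PlusOn (Box L x), W β σ * sg (σ x)) =
      ∑ σ ∈ PlusOn (Box L (0 : Site d n)), W β σ * sg (σ 0) := by
    refine Finset.sum_equiv (BXP_sh x) (fun σ => BXP_mem L x σ) fun σ _ => ?_
    rw [BXP_W]
    show W β σ * sg (σ x) = W β σ * sg (σ (0 + x))
    rw [zero_add]
  have h2 : (∑ σ ∈ PlusOn (Box L x), W β σ) = ∑ σ ∈ PlusOn (Box L (0 : Site d n)), W β σ :=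
    Finset.sum_equiv (BXP_sh x) (fun σ => BXP_mem L x σ) fun σ _ => (BXP_W β x σ).symm
  rw [h1, h2]

/-- distance to zero in `ZMod n` -/
def BXP_N {n : ℕ} (a : ZMod n) : ℕ := a.valMinAbs.natAbs

theorem BXP_N_add {n : ℕ} [NeZero n] (a b : ZMod n) : BXP_N (a + b) ≤ BXP_N a + BXP_N b :=
  (ZMod.natAbs_valMinAbs_add_le a b).trans (Int.natAbs_add_le _ _)

theorem BXP_N_neg {n : ℕ} [NeZero n] (a : ZMod n) : BXP_N (-a) = BXP_N a :=
  ZMod.natAbs_valMinAbs_neg a

theorem BXP_N_one {n : ℕ} [NeZero n] : BXP_N (1 : ZMod n) ≤ 1 := by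
  unfold BXP_N
  rw [ZMod.valMinAbs_natAbs_eq_min]
  refine (min_le_left _ _).trans ?_
  rw [ZMod.val_one_eq_one_mod]
  exact Nat.mod_le _ _

theorem BXP_N_ev {d n : ℕ} [NeZero n] (i k : Fin d) : BXP_N ((ev i : Site d n) k) ≤ 1 := by
  unfold ev
  rw [Pi.single_apply]
  split_ifs
  · exact BXP_N_one
  · unfold BXP_N
    rw [ZMod.valMinAbs_zero]
    norm_num

theorem BXP_far {d n L : ℕ} [NeZero n] {x y u v : Site d n} (hxy : ¬ Near (2 * L + 1) x y) (hu : u ∈ Box L x)
    (hv : v ∈ Box L y) (huv : ∀ k, BXP_N (v k - u k) ≤ 1) : False := by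
  apply hxy
  intro k
  have h1 : BXP_N (u k - x k) ≤ L := (mem_filter.1 hu).2 k
  have h2 : BXP_N (v k - y k) ≤ L := (mem_filter.1 hv).2 k
  have h3 : y k - x k = -(v k - y k) + ((v k - u k) + (u k - x k)) := by ring
  show BXP_N (y k - x k) ≤ 2 * L + 1
  rw [h3]
  have h4 := BXP_N_add (-(v k - y k)) ((v k - u k) + (u k - x k))
  have h5 := BXP_N_add (v k - u k) (u k - x k)
  rw [BXP_N_neg] at h4
  have h6 := huv k
  omega

theorem BXP_ne {d n L : ℕ} [NeZero n] {x y : Site d n} (hxy : ¬ Near (2 * L + 1) x y) (u : Site d n)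
    (hu : u ∈ Box L x) : u ∉ Box L y := by
  intro hv
  refine BXP_far hxy hu hv fun k => ?_
  rw [sub_self]
  unfold BXP_N
  rw [ZMod.valMinAbs_zero]
  norm_num

theorem BXP_ne1 {d n L : ℕ} [NeZero n] {x y : Site d n} (hxy : ¬ Near (2 * L + 1) x y) (u : Site d n) (i : Fin d)
    (hu : u ∈ Box L x) : u + ev i ∉ Box L y := by
  intro hv
  refine BXP_far hxy hu hv fun k => ?_
  have : (u + ev i : Site d n) k - u k = (ev i : Site d n) k := by
    rw [Pi.add_apply, add_sub_cancel_left]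
  rw [this]
  exact BXP_N_ev i k

theorem BXP_ne2 {d n L : ℕ} [NeZero n] {x y : Site d n} (hxy : ¬ Near (2 * L + 1) x y) (u : Site d n) (i : Fin d)
    (hu : u + ev i ∈ Box L x) : u ∉ Box L y := by
  intro hv
  refine BXP_far hxy hu hv fun k => ?_
  have : u k - (u + ev i : Site d n) k = -(ev i : Site d n) k := by
    rw [Pi.add_apply, sub_add_cancel_left]
  rw [this, BXP_N_neg]
  exact BXP_N_ev i k

theorem BXP_self {d n : ℕ} [NeZero n] (L : ℕ) (x : Site d n) : x ∈ Box L x := by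
  unfold Box
  rw [mem_filter]
  refine ⟨mem_univ _, fun k => ?_⟩
  rw [sub_self, ZMod.valMinAbs_zero]
  exact Nat.zero_le _

section prod
variable {d n : ℕ} [NeZero n]

/-- an edge meeting `D` does not meet `D'` -/
def BXP_sep (D D' : Finset (Site d n)) : Prop :=
  ∀ (u : Site d n) (i : Fin d), (u ∈ D → u ∉ D' ∧ u + ev i ∉ D') ∧ (u + ev i ∈ D → u + ev i ∉ D' ∧ u ∉ D')

theorem BXP_card (D D' : Finset (Site d n)) (hs : BXP_sep D D') (σ : Conf d n) (hσ : σ ∈ PlusOn (D ∪ D')) :
    (brk σ).card = (brk (CU.ext D σ)).card + (brk (CU.ext D' σ)).card := by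
  have hp : ∀ z, z ∉ D → z ∉ D' → σ z = true := by
    intro z h1 h2
    refine (mem_filter.1 hσ).2 z fun h => ?_
    rcases mem_union.1 h with h | h
    · exact h1 h
    · exact h2 h
  have hdis : Disjoint (brk (CU.ext D σ)) (brk (CU.ext D' σ)) := by
    rw [Finset.disjoint_left]
    intro e h1 h2
    have h1' : CU.ext D σ e.1 ≠ CU.ext D σ (e.1 + ev e.2) := (mem_filter.1 h1).2
    have h2' : CU.ext D' σ e.1 ≠ CU.ext D' σ (e.1 + ev e.2) := (mem_filter.1 h2).2
    unfold CU.ext at h1' h2'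
    by_cases ha : e.1 ∈ D
    · have h3 := (hs e.1 e.2).1 ha
      rw [if_neg h3.1, if_neg h3.2] at h2'
      exact h2' rfl
    · by_cases hb : e.1 + ev e.2 ∈ D
      · have h3 := (hs e.1 e.2).2 hb
        rw [if_neg h3.1, if_neg h3.2] at h2'
        exact h2' rfl
      · rw [if_neg ha, if_neg hb] at h1'
        exact h1' rfl
  rw [← Finset.card_union_of_disjoint hdis]
  congr 1
  ext e
  rw [mem_union]
  unfold brk
  simp only [mem_filter, mem_univ, true_and]
  unfold CU.ext
  by_cases ha : e.1 ∈ D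
  · have h3 := (hs e.1 e.2).1 ha
    rw [if_pos ha, if_neg h3.1, if_neg h3.2]
    by_cases hb : e.1 + ev e.2 ∈ D
    · rw [if_pos hb]
      tauto
    · rw [if_neg hb, hp _ hb h3.2]
      tauto
  · by_cases hb : e.1 + ev e.2 ∈ D
    · have h3 := (hs e.1 e.2).2 hb
      rw [if_neg ha, if_pos hb, if_neg h3.1, if_neg h3.2, hp _ ha h3.2]
      tauto
    · rw [if_neg ha, if_neg hb]
      by_cases hc : e.1 ∈ D'
      · rw [if_pos hc]
        by_cases he : e.1 + ev e.2 ∈ D'
        · rw [if_pos he]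
          tauto
        · rw [if_neg he, hp _ hb he]
          tauto
      · rw [if_neg hc, hp _ ha hc]
        by_cases he : e.1 + ev e.2 ∈ D'
        · rw [if_pos he]
          tauto
        · rw [if_neg he, hp _ hb he]
          tauto

theorem BXP_Wp (β : ℝ) (D D' : Finset (Site d n)) (hs : BXP_sep D D') (σ : Conf d n) (hσ : σ ∈ PlusOn (D ∪ D')) :
    W β σ = W β (CU.ext D σ) * W β (CU.ext D' σ) := by
  unfold W
  rw [BXP_card D D' hs σ hσ, ← Real.exp_add]
  congr 1
  push_cast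
  ring

theorem BXP_sum (β : ℝ) (D D' : Finset (Site d n)) (hs : BXP_sep D D') (hd : ∀ z, z ∈ D → z ∉ D')
    (F G : Conf d n → ℝ) :
    (∑ σ ∈ PlusOn (D ∪ D'), W β σ * (F (CU.ext D σ) * G (CU.ext D' σ))) =
      (∑ σ ∈ PlusOn D, W β σ * F σ) * ∑ σ ∈ PlusOn D', W β σ * G σ := by
  rw [Finset.sum_mul_sum, ← Finset.sum_product']
  refine Finset.sum_nbij' (fun σ => (CU.ext D σ, CU.ext D' σ)) (fun p z => p.1 z && p.2 z) ?_ ?_ ?_ ?_ ?_
  · intro σ _
    rw [mem_product]
    unfold PlusOn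
    simp only [mem_filter, mem_univ, true_and]
    constructor
    · intro z hz
      unfold CU.ext
      rw [if_neg hz]
    · intro z hz
      unfold CU.ext
      rw [if_neg hz]
  · intro p hp
    obtain ⟨h1, h2⟩ := mem_product.1 hp
    have h1' := (mem_filter.1 h1).2
    have h2' := (mem_filter.1 h2).2
    unfold PlusOn
    rw [mem_filter]
    refine ⟨mem_univ _, fun z hz => ?_⟩
    rw [mem_union, not_or] at hz
    show (p.1 z && p.2 z) = true
    rw [h1' z hz.1, h2' z hz.2]
    rfl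
  · intro σ hσ
    have h := (mem_filter.1 hσ).2
    funext z
    show ((if z ∈ D then σ z else true) && (if z ∈ D' then σ z else true)) = σ z
    by_cases h1 : z ∈ D
    · rw [if_pos h1, if_neg (hd z h1), Bool.and_true]
    · rw [if_neg h1, Bool.true_and]
      by_cases h2 : z ∈ D'
      · rw [if_pos h2]
      · rw [if_neg h2]
        exact (h z (by rw [mem_union, not_or]; exact ⟨h1, h2⟩)).symm
  · intro p hp
    obtain ⟨h1, h2⟩ := mem_product.1 hp
    have h1' := (mem_filter.1 h1).2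
    have h2' := (mem_filter.1 h2).2
    refine Prod.ext ?_ ?_
    · funext z
      show (if z ∈ D then (p.1 z && p.2 z) else true) = p.1 z
      by_cases h3 : z ∈ D
      · rw [if_pos h3, h2' z (hd z h3), Bool.and_true]
      · rw [if_neg h3, h1' z h3]
    · funext z
      show (if z ∈ D' then (p.1 z && p.2 z) else true) = p.2 z
      by_cases h3 : z ∈ D'
      · rw [if_pos h3, h1' z (fun h4 => hd z h4 h3), Bool.true_and]
      · rw [if_neg h3, h2' z h3]
  · intro σ hσ
    rw [BXP_Wp β D D' hs σ hσ]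
    ring

end prod

theorem BXP : BXP_stmt := by
  intro d n L _ hn β x y
  refine ⟨BXP_tr L β x, ?_⟩
  intro hxy
  have hyx : ¬ Near (2 * L + 1) y x := by
    intro h
    apply hxy
    intro k
    have := h k
    have e : y k - x k = -(x k - y k) := by ring
    rw [e, ZMod.natAbs_valMinAbs_neg]
    exact this
  have hs : BXP_sep (Box L x) (Box L y) := by
    intro u i
    exact ⟨fun hu => ⟨BXP_ne hxy u hu, BXP_ne1 hxy u i hu⟩, fun hu => ⟨BXP_ne hxy _ hu, BXP_ne2 hxy u i hu⟩⟩
  have hd : ∀ z, z ∈ Box L x → z ∉ Box L y := fun z hz => BXP_ne hxy z hz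
  have h1 := BXP_sum β (Box L x) (Box L y) hs hd (fun σ => sg (σ x)) (fun σ => sg (σ y))
  have h2 := BXP_sum β (Box L x) (Box L y) hs hd (fun _ => 1) (fun _ => 1)
  simp only [mul_one] at h2
  have h3 : (∑ σ ∈ PlusOn (Box L x ∪ Box L y), W β σ * (sg (σ x) * sg (σ y))) =
      ∑ σ ∈ PlusOn (Box L x ∪ Box L y), W β σ * (sg (CU.ext (Box L x) σ x) * sg (CU.ext (Box L y) σ y)) := by
    refine Finset.sum_congr rfl fun σ _ => ?_
    unfold CU.ext
    rw [if_pos (BXP_self L x), if_pos (BXP_self L y)]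
  have h4 : ExD β (Box L x ∪ Box L y) (fun σ => sg (σ x) * sg (σ y)) =
      ExD β (Box L x) (fun σ => sg (σ x)) * ExD β (Box L y) (fun σ => sg (σ y)) := by
    unfold ExD
    rw [h3, h1, h2, mul_div_mul_comm]
  rw [h4, BXP_tr L β x, BXP_tr L β y, pow_two]

end CO
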