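import Pool.Agent.helper82.CO.LPI

/-!
# co:GK2 — the second Griffiths inequality
-/

set_option autoImplicit false

open Finset Filter Topology

namespace CO

open CWM (HH PL_stmt)

theorem GK2_le {V : Type} [Fintype V] [DecidableEq V] (K : V → V → ℝ) (g : V → ℝ) (f : (V → Bool) → ℝ)
    (hf : ∀ σ, f σ ≤ 1) : ex K g f ≤ 1 := by
  rw [LPI_ex, div_le_one (LPI_Z K g)]
  unfold LPI_S
  exact Finset.sum_le_sum fun σ _ => mul_le_mul_of_nonneg_left (hf σ) (Real.exp_pos _).le

theorem GK2_sg (b : Bool) : CU.sg b ≤ 1 := by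
  cases b <;> simp [CU.sg]

theorem GK2_sg2 (b b' : Bool) : CU.sg b * CU.sg b' ≤ 1 := by
  cases b <;> cases b' <;> simp [CU.sg]

theorem GK2 (hPL : CWM.PL_stmt) : GK2_stmt := by
  intro V _ _ K g hK hg
  have hZ := LPI_Z K g
  have hkey := LPI_key hPL K K g g (fun x y => (abs_of_nonneg (hK x y)).le) (fun x => (abs_of_nonneg (hg x)).le)
  have h0 : ∀ x, 0 ≤ ex K g (fun σ => CU.sg (σ x)) := by
    intro x
    have h := hkey [(x, 0)]
    simp only [List.map_cons, List.map_nil, List.prod_cons, List.prod_nil, mul_one, LPI_t] at h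
    have e : (∑ p : (V → Bool) × (V → Bool), (CU.sg (p.1 x) + CU.sg (p.2 x)) * Real.exp (HH K g p.1 + HH K g p.2)) =
        LPI_S K g (fun σ => CU.sg (σ x)) * LPI_S K g (fun _ => 1) +
          LPI_S K g (fun _ => 1) * LPI_S K g (fun σ => CU.sg (σ x)) := by
      rw [← LPI_pr, ← LPI_pr, ← Finset.sum_add_distrib]
      refine Finset.sum_congr rfl fun p _ => ?_
      ring
    rw [e] at h
    rw [LPI_ex]
    refine div_nonneg ?_ hZ.le
    by_contra hn
    push Not at hn
    have := mul_neg_of_neg_of_pos hn hZ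
    linarith [mul_comm (LPI_S K g fun _ => 1) (LPI_S K g fun σ => CU.sg (σ x))]
  have h1 : ∀ x y, ex K g (fun σ => CU.sg (σ x)) * ex K g (fun σ => CU.sg (σ y)) ≤ c2 K g x y := by
    intro x y
    unfold c2
    rw [LPI_ex, LPI_ex, LPI_ex]
    have h := hkey [(x, 1), (y, 1)]
    simp only [List.map_cons, List.map_nil, List.prod_cons, List.prod_nil, mul_one, LPI_q] at h
    have e : (∑ p : (V → Bool) × (V → Bool), (CU.sg (p.1 x) - CU.sg (p.2 x)) * (CU.sg (p.1 y) - CU.sg (p.2 y)) *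
        Real.exp (HH K g p.1 + HH K g p.2)) =
        LPI_S K g (fun σ => CU.sg (σ x) * CU.sg (σ y)) * LPI_S K g (fun _ => 1) +
        LPI_S K g (fun _ => 1) * LPI_S K g (fun σ => CU.sg (σ x) * CU.sg (σ y)) -
        LPI_S K g (fun σ => CU.sg (σ x)) * LPI_S K g (fun σ => CU.sg (σ y)) -
        LPI_S K g (fun σ => CU.sg (σ y)) * LPI_S K g (fun σ => CU.sg (σ x)) := by
      rw [← LPI_pr, ← LPI_pr, ← LPI_pr, ← LPI_pr, ← Finset.sum_add_distrib, ← Finset.sum_sub_distrib,
        ← Finset.sum_sub_distrib]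
      refine Finset.sum_congr rfl fun p _ => ?_
      ring
    rw [e] at h
    generalize LPI_S K g (fun σ => CU.sg (σ x) * CU.sg (σ y)) = U at *
    generalize LPI_S K g (fun σ => CU.sg (σ x)) = A at *
    generalize LPI_S K g (fun σ => CU.sg (σ y)) = B at *
    generalize LPI_S K g (fun _ => 1) = Z at *
    rw [div_mul_div_comm, div_le_div_iff₀ (mul_pos hZ hZ) hZ]
    have h2 : A * B ≤ U * Z := by linarith [mul_comm A B, mul_comm U Z]
    calc A * B * Z ≤ U * Z * Z := mul_le_mul_of_nonneg_right h2 hZ.le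
      _ = U * (Z * Z) := mul_assoc _ _ _
  refine ⟨h1, fun x => ⟨h0 x, GK2_le K g _ fun σ => GK2_sg _⟩, fun x y => ⟨?_, GK2_le K g _ fun σ => GK2_sg2 _ _⟩⟩
  exact (mul_nonneg (h0 x) (h0 y)).trans (h1 x y)

end CO
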