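import Pool.Agent.helper23.CO.SpecB

/-!
# co:HHT — the energy of the torus as a ferromagnet
-/

set_option autoImplicit false

open Finset Filter Topology

namespace CO

open CU

theorem HHT_one {d n : ℕ} [NeZero n] (b h : ℝ) (J : Site d n → ℝ) (σ : Conf d n) :
    CWM.HH (KT b J) (fun _ => h) σ =
      b * HN σ + (∑ x, ∑ y, J (y - x) * (sg (σ x) * sg (σ y))) + h * Mg σ := by
  have h0 : (∑ x : Site d n, h * sg (σ x)) = h * Mg σ := by
    unfold Mg
    rw [Finset.mul_sum]
  unfold CWM.HH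
  rw [h0]
  refine congrArg (fun z => z + h * Mg σ) ?_
  unfold HN
  rw [Finset.mul_sum, ← Finset.sum_add_distrib]
  refine Finset.sum_congr rfl fun x _ => ?_
  unfold KT
  have h1 : ∀ y : Site d n, (b * (∑ i : Fin d, if y = x + ev i then (1 : ℝ) else 0) + J (y - x)) *
      (sg (σ x) * sg (σ y)) =
      b * (∑ i : Fin d, if y = x + ev i then sg (σ x) * sg (σ y) else 0) + J (y - x) * (sg (σ x) * sg (σ y)) := by
    intro y
    rw [add_mul, mul_assoc, Finset.sum_mul]
    congr 2
    refine Finset.sum_congr rfl fun i _ => ?_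
    rw [ite_mul, one_mul, zero_mul]
  rw [Finset.sum_congr rfl fun y _ => h1 y, Finset.sum_add_distrib, ← Finset.mul_sum, Finset.sum_comm]
  congr 2
  refine Finset.sum_congr rfl fun i _ => ?_
  rw [Finset.sum_ite_eq' univ (x + ev i) fun y => sg (σ x) * sg (σ y)]
  simp only [mem_univ, if_true]

theorem HHT : HHT_stmt := by
  intro d n _ b h J σ
  refine ⟨HHT_one b h J σ, ?_⟩
  intro k a r s
  rw [HHT_one]
  have hM : (∑ x : Site d n, ∑ y : Site d n, sg (σ x) * sg (σ y)) = Mg σ * Mg σ := by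
    unfold Mg
    rw [Finset.sum_mul_sum]
  have h2 : (∑ x : Site d n, ∑ y : Site d n,
      s * ((n : ℝ) ^ (d - 1) * (a * k (y - x) + r / (Fintype.card (Site d n) : ℝ)) /
        (Fintype.card (Site d n) : ℝ)) * (sg (σ x) * sg (σ y))) =
      s * ((n : ℝ) ^ (d - 1) * (a * (∑ x : Site d n, ∑ y : Site d n, k (y - x) * (sg (σ x) * sg (σ y))) +
        r / (Fintype.card (Site d n) : ℝ) * ∑ x : Site d n, ∑ y : Site d n, sg (σ x) * sg (σ y)) /
        (Fintype.card (Site d n) : ℝ)) := by
    simp only [Finset.mul_sum, Finset.sum_div, ← Finset.sum_add_distrib]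
    refine Finset.sum_congr rfl fun x _ => Finset.sum_congr rfl fun y _ => ?_
    ring
  rw [h2, hM]
  unfold Yk Qf
  ring

end CO
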