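import Pool.Agent.helper23.CO.SpecB

/-!
# co:PTB — perturbation of averages
-/

set_option autoImplicit false

open Finset Filter Topology

namespace CO

theorem PTB : PTB_stmt := by
  intro X _ _ S w ψ f c ρ hS hw hf hψ
  have hρ : 0 ≤ ρ := by
    obtain ⟨x, hx⟩ := hS
    exact (abs_nonneg _).trans (hψ x hx)
  have hW : 0 < ∑ x ∈ S, w x := Finset.sum_pos (fun x _ => hw x) hS
  have hW' : 0 < ∑ x ∈ S, w x * Real.exp (ψ x) :=
    Finset.sum_pos (fun x _ => mul_pos (hw x) (Real.exp_pos _)) hS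
  have hlo : Real.exp (c - ρ) * ∑ x ∈ S, w x ≤ ∑ x ∈ S, w x * Real.exp (ψ x) := by
    rw [Finset.mul_sum]
    refine Finset.sum_le_sum fun x hx => ?_
    have h1 : Real.exp (c - ρ) ≤ Real.exp (ψ x) := by
      apply Real.exp_le_exp.2
      have := (abs_le.1 (hψ x hx)).1
      linarith
    calc Real.exp (c - ρ) * w x ≤ Real.exp (ψ x) * w x := mul_le_mul_of_nonneg_right h1 (hw x).le
      _ = w x * Real.exp (ψ x) := mul_comm _ _
  have hup : (∑ x ∈ S, w x * Real.exp (ψ x) * f x) + ∑ x ∈ S, w x * Real.exp (ψ x) ≤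
      Real.exp (c + ρ) * ((∑ x ∈ S, w x * f x) + ∑ x ∈ S, w x) := by
    rw [← Finset.sum_add_distrib, ← Finset.sum_add_distrib, Finset.mul_sum]
    refine Finset.sum_le_sum fun x hx => ?_
    have h1 : Real.exp (ψ x) ≤ Real.exp (c + ρ) := by
      apply Real.exp_le_exp.2
      have := (abs_le.1 (hψ x hx)).2
      linarith
    have h2 : 0 ≤ w x * (1 + f x) := by
      have := (abs_le.1 (hf x hx)).1
      exact mul_nonneg (hw x).le (by linarith)
    calc w x * Real.exp (ψ x) * f x + w x * Real.exp (ψ x) = Real.exp (ψ x) * (w x * (1 + f x)) := by ring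
      _ ≤ Real.exp (c + ρ) * (w x * (1 + f x)) := mul_le_mul_of_nonneg_right h1 h2
      _ = Real.exp (c + ρ) * (w x * f x + w x) := by ring
  have hFW : ∑ x ∈ S, w x * f x ≤ ∑ x ∈ S, w x := by
    refine Finset.sum_le_sum fun x hx => ?_
    have h1 := (abs_le.1 (hf x hx)).2
    calc w x * f x ≤ w x * 1 := mul_le_mul_of_nonneg_left h1 (hw x).le
      _ = w x := mul_one _
  have hFW0 : 0 ≤ (∑ x ∈ S, w x * f x) + ∑ x ∈ S, w x := by
    rw [← Finset.sum_add_distrib]
    refine Finset.sum_nonneg fun x hx => ?_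
    have h1 := (abs_le.1 (hf x hx)).1
    have h2 : 0 ≤ w x * (f x + 1) := mul_nonneg (hw x).le (by linarith)
    linarith [h2, mul_add (w x) (f x) 1, mul_one (w x)]
  generalize (∑ x ∈ S, w x * Real.exp (ψ x) * f x) = F' at *
  generalize (∑ x ∈ S, w x * Real.exp (ψ x)) = W' at *
  generalize (∑ x ∈ S, w x * f x) = F at *
  generalize (∑ x ∈ S, w x) = W at *
  have hE : 1 ≤ Real.exp (2 * ρ) := Real.one_le_exp (by linarith)
  have hm : Real.exp (c + ρ) = Real.exp (2 * ρ) * Real.exp (c - ρ) := by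
    rw [← Real.exp_add]
    congr 1
    ring
  have h1 : F' / W' + 1 ≤ Real.exp (2 * ρ) * (F / W + 1) := by
    have e1 : F' / W' + 1 = (F' + W') / W' := by
      field_simp
    have e2 : Real.exp (2 * ρ) * (F / W + 1) = Real.exp (2 * ρ) * (F + W) / W := by
      field_simp
    rw [e1, e2, div_le_div_iff₀ hW' hW]
    calc (F' + W') * W ≤ Real.exp (c + ρ) * (F + W) * W := mul_le_mul_of_nonneg_right hup hW.le
      _ = Real.exp (2 * ρ) * (F + W) * (Real.exp (c - ρ) * W) := by rw [hm]; ring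
      _ ≤ Real.exp (2 * ρ) * (F + W) * W' :=
        mul_le_mul_of_nonneg_left hlo (mul_nonneg (Real.exp_pos _).le hFW0)
  have h2 : F / W ≤ 1 := (div_le_one hW).2 hFW
  have h3 : (Real.exp (2 * ρ) - 1) * (F / W + 1) ≤ (Real.exp (2 * ρ) - 1) * 2 :=
    mul_le_mul_of_nonneg_left (by linarith) (by linarith)
  have h4 : Real.exp (2 * ρ) * (F / W + 1) = F / W + 1 + (Real.exp (2 * ρ) - 1) * (F / W + 1) := by ring
  linarith

end CO
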