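import Pool.Agent.helper23.CO.SpecB

/-!
# co:TRI — translation invariance of the torus ferromagnet
-/

set_option autoImplicit false

open Finset Filter Topology

namespace CO

open CU

/-- the shift of configurations -/
def TRI_sh {d n : ℕ} (a : Site d n) : Conf d n ≃ Conf d n where
  toFun σ := fun z => σ (z + a)
  invFun σ := fun z => σ (z - a)
  left_inv σ := by
    funext z
    simp only [sub_add_cancel]
  right_inv σ := by
    funext z
    simp only [add_sub_cancel_right]

theorem TRI_KT {d n : ℕ} [NeZero n] (b : ℝ) (J : Site d n → ℝ) (a x y : Site d n) :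
    KT b J (x + a) (y + a) = KT b J x y := by
  unfold KT
  have h1 : ∀ i : Fin d, (y + a = x + a + ev i) ↔ (y = x + ev i) := by
    intro i
    rw [add_right_comm x a (ev i)]
    exact add_left_inj a
  have h2 : y + a - (x + a) = y - x := add_sub_add_right_eq_sub y x a
  rw [h2]
  simp only [h1]

theorem TRI_HH {d n : ℕ} [NeZero n] (b h : ℝ) (J : Site d n → ℝ) (a : Site d n) (σ : Conf d n) :
    CWM.HH (KT b J) (fun _ => h) (TRI_sh a σ) = CWM.HH (KT b J) (fun _ => h) σ := by
  unfold CWM.HH
  have h1 : (∑ x : Site d n, ∑ y : Site d n, KT b J x y * (sg (TRI_sh a σ x) * sg (TRI_sh a σ y))) =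
      ∑ x : Site d n, ∑ y : Site d n, KT b J x y * (sg (σ x) * sg (σ y)) := by
    rw [← Equiv.sum_comp (Equiv.addRight a) (fun x : Site d n => ∑ y : Site d n, KT b J x y * (sg (σ x) * sg (σ y)))]
    refine Finset.sum_congr rfl fun x _ => ?_
    rw [← Equiv.sum_comp (Equiv.addRight a) (fun y : Site d n =>
      KT b J ((Equiv.addRight a) x) y * (sg (σ ((Equiv.addRight a) x)) * sg (σ y)))]
    refine Finset.sum_congr rfl fun y _ => ?_
    show KT b J x y * (sg (σ (x + a)) * sg (σ (y + a))) =
      KT b J (x + a) (y + a) * (sg (σ (x + a)) * sg (σ (y + a)))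
    rw [TRI_KT]
  have h2 : (∑ x : Site d n, h * sg (TRI_sh a σ x)) = ∑ x : Site d n, h * sg (σ x) := by
    rw [← Equiv.sum_comp (Equiv.addRight a) (fun x : Site d n => h * sg (σ x))]
    rfl
  rw [h1, h2]

theorem TRI_ex {d n : ℕ} [NeZero n] (b h : ℝ) (J : Site d n → ℝ) (a : Site d n) (f : Conf d n → ℝ) :
    ex (KT b J) (fun _ => h) f = ex (KT b J) (fun _ => h) fun σ => f (TRI_sh a σ) := by
  unfold ex
  refine congrArg (fun z => z / ∑ σ : Conf d n, Real.exp (CWM.HH (KT b J) (fun _ => h) σ)) ?_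
  rw [← (TRI_sh a).sum_comp (fun σ : Conf d n => Real.exp (CWM.HH (KT b J) (fun _ => h) σ) * f σ)]
  refine Finset.sum_congr rfl fun σ _ => ?_
  rw [TRI_HH]

theorem TRI (hHHT : HHT_stmt) : TRI_stmt := by
  intro d n _ b h J
  have _ := hHHT
  have h1 : ∀ x y : Site d n, c2 (KT b J) (fun _ => h) x y = cT b J h (y - x) := by
    intro x y
    unfold cT c2
    rw [TRI_ex b h J x fun σ => sg (σ 0) * sg (σ (y - x))]
    refine congrArg (ex (KT b J) fun _ => h) ?_
    funext σ
    show sg (σ x) * sg (σ y) = sg (σ (0 + x)) * sg (σ (y - x + x))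
    rw [zero_add, sub_add_cancel]
  refine ⟨h1, ?_, ?_, ?_⟩
  · intro x
    rw [TRI_ex b h J x fun σ => sg (σ 0)]
    refine congrArg (ex (KT b J) fun _ => h) ?_
    funext σ
    show sg (σ x) = sg (σ (0 + x))
    rw [zero_add]
  · unfold cT c2 ex
    have h2 : ∀ σ : Conf d n, sg (σ 0) * sg (σ 0) = 1 := by
      intro σ
      unfold sg
      cases σ 0 <;> simp
    simp only [h2, mul_one]
    exact div_self (Finset.sum_pos (fun σ _ => Real.exp_pos _) Finset.univ_nonempty).ne'
  · intro x
    have h2 : c2 (KT b J) (fun _ => h) x 0 = cT b J h (-x) := by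
      rw [h1, zero_sub]
    rw [← h2]
    unfold cT c2
    refine congrArg (ex (KT b J) fun _ => h) ?_
    funext σ
    exact mul_comm _ _

end CO
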