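import Pool.Agent.helper23.CO.Spec
import Pool.Agent.helper18.CWM.G2

/-!
# co:LPI — inequalities of Ginibre and Lebowitz, Pfister (key lemma as in CWM/G2.lean of helper18)
-/

set_option autoImplicit false

open Finset Filter Topology

namespace CO

open CWM (HH G2_e G2_dl G2_mono1 G2_mono2 G2_pos PL_stmt)

section
variable {V : Type} [Fintype V] [DecidableEq V]

/-- exponents of a monomial -/
def LPI_a (l : List (V × Fin 2)) (z : V) (r : Fin 2) : ℕ := (l.map fun q => G2_dl q.1 q.2 z r).sum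

theorem LPI_mono (l : List (V × Fin 2)) (σ : V → Bool × Bool) :
    (∏ z, ∏ r, G2_e r (σ z) ^ LPI_a l z r) = (l.map fun q => G2_e q.2 (σ q.1)).prod := by
  induction l with
  | nil => simp [LPI_a]
  | cons q l ih =>
    rw [List.map_cons, List.prod_cons, ← ih, ← G2_mono1 σ q.1 q.2, ← Finset.prod_mul_distrib]
    refine Finset.prod_congr rfl fun z _ => ?_
    rw [← Finset.prod_mul_distrib]
    refine Finset.prod_congr rfl fun r _ => ?_
    unfold LPI_a
    rw [List.map_cons, List.sum_cons, pow_add]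

theorem LPI_key (hPL : PL_stmt) (K K' : V → V → ℝ) (g g' : V → ℝ)
    (hK : ∀ x y, |K' x y| ≤ K x y) (hg : ∀ x, |g' x| ≤ g x) (l : List (V × Fin 2)) :
    0 ≤ ∑ p : (V → Bool) × (V → Bool), (l.map fun q => G2_e q.2 (p.1 q.1, p.2 q.1)).prod *
      Real.exp (HH K g p.1 + HH K' g' p.2) := by
  have key0 := hPL V (Bool × Bool) ((V × V × Fin 2 × Fin 2) ⊕ (V × Fin 2)) 2 G2_e G2_pos
    (Sum.elim (fun p => if p.2.2.1 = p.2.2.2 then (K p.1 p.2.1 + K' p.1 p.2.1) / 4 else
      (K p.1 p.2.1 - K' p.1 p.2.1) / 4)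
      (fun p => if p.2 = 0 then (g p.1 + g' p.1) / 2 else (g p.1 - g' p.1) / 2))
    (Sum.elim (fun p z r => G2_dl p.1 p.2.2.1 z r + G2_dl p.2.1 p.2.2.2 z r)
      (fun p => G2_dl p.1 p.2)) ?_ (LPI_a l)
  · have hH : ∀ σ : V → Bool × Bool,
        (∑ j : (V × V × Fin 2 × Fin 2) ⊕ (V × Fin 2),
          Sum.elim (fun p : V × V × Fin 2 × Fin 2 =>
            if p.2.2.1 = p.2.2.2 then (K p.1 p.2.1 + K' p.1 p.2.1) / 4 else
            (K p.1 p.2.1 - K' p.1 p.2.1) / 4)
            (fun p : V × Fin 2 => if p.2 = 0 then (g p.1 + g' p.1) / 2 else (g p.1 - g' p.1) / 2) j *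
          ∏ z, ∏ i, G2_e i (σ z) ^
            Sum.elim (fun (p : V × V × Fin 2 × Fin 2) z r =>
              G2_dl p.1 p.2.2.1 z r + G2_dl p.2.1 p.2.2.2 z r)
              (fun p : V × Fin 2 => G2_dl p.1 p.2) j z i) =
        HH K g (fun z => (σ z).1) + HH K' g' (fun z => (σ z).2) := by
      intro σ
      rw [Fintype.sum_sum_type]
      simp only [Sum.elim_inl, Sum.elim_inr]
      simp only [G2_mono1, G2_mono2]
      unfold HH
      have e1 : (∑ p : V × V × Fin 2 × Fin 2,
          (if p.2.2.1 = p.2.2.2 then (K p.1 p.2.1 + K' p.1 p.2.1) / 4 else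
            (K p.1 p.2.1 - K' p.1 p.2.1) / 4) * (G2_e p.2.2.1 (σ p.1) * G2_e p.2.2.2 (σ p.2.1))) =
          (∑ x, ∑ y, K x y * (CU.sg (σ x).1 * CU.sg (σ y).1)) +
          ∑ x, ∑ y, K' x y * (CU.sg (σ x).2 * CU.sg (σ y).2) := by
        rw [← Finset.sum_add_distrib, Fintype.sum_prod_type]
        refine Finset.sum_congr rfl fun x _ => ?_
        rw [← Finset.sum_add_distrib, Fintype.sum_prod_type]
        refine Finset.sum_congr rfl fun y _ => ?_
        rw [Fintype.sum_prod_type]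
        simp only [Fin.sum_univ_two, G2_e]
        simp
        ring
      have e2 : (∑ p : V × Fin 2,
          (if p.2 = 0 then (g p.1 + g' p.1) / 2 else (g p.1 - g' p.1) / 2) * G2_e p.2 (σ p.1)) =
          (∑ x, g x * CU.sg (σ x).1) + ∑ x, g' x * CU.sg (σ x).2 := by
        rw [← Finset.sum_add_distrib, Fintype.sum_prod_type]
        refine Finset.sum_congr rfl fun x _ => ?_
        simp only [Fin.sum_univ_two, G2_e]
        simp
        ring
      rw [e1, e2]
      ring
    simp only [hH, LPI_mono] at key0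
    rw [← Equiv.sum_comp (Equiv.arrowProdEquivProdArrow V (fun _ => Bool) (fun _ => Bool))]
    refine key0.trans_eq (Finset.sum_congr rfl fun σ _ => ?_)
    rfl
  · intro j
    rcases j with p | p
    · have := abs_le.1 (hK p.1 p.2.1)
      simp only [Sum.elim_inl]
      split_ifs
      · linarith [this.1]
      · linarith [this.2]
    · have := abs_le.1 (hg p.1)
      simp only [Sum.elim_inr]
      split_ifs
      · linarith [this.1]
      · linarith [this.2]

/-- the weighted sum -/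
noncomputable def LPI_S (K : V → V → ℝ) (g : V → ℝ) (f : (V → Bool) → ℝ) : ℝ :=
  ∑ σ : V → Bool, Real.exp (HH K g σ) * f σ

theorem LPI_Z (K : V → V → ℝ) (g : V → ℝ) : 0 < LPI_S K g fun _ => 1 := by
  unfold LPI_S
  simp only [mul_one]
  exact Finset.sum_pos (fun σ _ => Real.exp_pos _) Finset.univ_nonempty

theorem LPI_ex (K : V → V → ℝ) (g : V → ℝ) (f : (V → Bool) → ℝ) :
    ex K g f = LPI_S K g f / LPI_S K g fun _ => 1 := by
  unfold LPI_S ex
  simp only [mul_one]

theorem LPI_pr (K K' : V → V → ℝ) (g g' : V → ℝ) (f h : (V → Bool) → ℝ) :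
    (∑ p : (V → Bool) × (V → Bool), (f p.1 * h p.2) * Real.exp (HH K g p.1 + HH K' g' p.2)) =
      LPI_S K g f * LPI_S K' g' h := by
  unfold LPI_S
  rw [Fintype.sum_prod_type, Finset.sum_mul_sum]
  refine Finset.sum_congr rfl fun σ _ => Finset.sum_congr rfl fun σ' _ => ?_
  rw [Real.exp_add]
  ring

omit [Fintype V] [DecidableEq V] in
theorem LPI_t (x : V) (p : (V → Bool) × (V → Bool)) :
    G2_e 0 (p.1 x, p.2 x) = CU.sg (p.1 x) + CU.sg (p.2 x) := by
  simp [G2_e]

omit [Fintype V] [DecidableEq V] in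
theorem LPI_q (x : V) (p : (V → Bool) × (V → Bool)) :
    G2_e 1 (p.1 x, p.2 x) = CU.sg (p.1 x) - CU.sg (p.2 x) := by
  simp [G2_e]

end

theorem LPI_abs (a a' Z Z' : ℝ) (hZ : 0 < Z) (hZ' : 0 < Z') (h1 : 0 ≤ a * Z' - a' * Z)
    (h2 : 0 ≤ a * Z' + a' * Z) : |a' / Z'| ≤ a / Z := by
  rw [abs_le]
  constructor
  · rw [← neg_div, div_le_div_iff₀ hZ hZ']
    linarith
  · rw [div_le_div_iff₀ hZ' hZ]
    linarith

theorem LPI_sq (b : Bool) : CU.sg b * CU.sg b = 1 := by
  cases b <;> simp [CU.sg]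

theorem LPI (hPL : CWM.PL_stmt) : LPI_stmt := by
  intro V _ _ K K' g g' hK hg
  have hZ := LPI_Z K g
  have hZ' := LPI_Z K' g'
  have hkey := LPI_key hPL K K' g g' hK hg
  refine ⟨?_, ?_, ?_⟩
  · intro x
    rw [LPI_ex, LPI_ex]
    apply LPI_abs _ _ _ _ hZ hZ'
    · have h := hkey [(x, 1)]
      simp only [List.map_cons, List.map_nil, List.prod_cons, List.prod_nil, mul_one, LPI_q] at h
      rw [← LPI_pr, mul_comm (LPI_S K' g' _), ← LPI_pr, ← Finset.sum_sub_distrib]
      refine h.trans_eq (Finset.sum_congr rfl fun p _ => ?_)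
      ring
    · have h := hkey [(x, 0)]
      simp only [List.map_cons, List.map_nil, List.prod_cons, List.prod_nil, mul_one, LPI_t] at h
      rw [← LPI_pr, mul_comm (LPI_S K' g' _), ← LPI_pr, ← Finset.sum_add_distrib]
      refine h.trans_eq (Finset.sum_congr rfl fun p _ => ?_)
      ring
  · intro x y
    unfold c2
    rw [LPI_ex, LPI_ex]
    apply LPI_abs _ _ _ _ hZ hZ'
    · have h1 := hkey [(x, 0), (y, 1)]
      have h2 := hkey [(x, 1), (y, 0)]
      simp only [List.map_cons, List.map_nil, List.prod_cons, List.prod_nil, mul_one, LPI_q, LPI_t] at h1 h2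
      have h3 := add_nonneg h1 h2
      rw [← Finset.sum_add_distrib] at h3
      rw [← LPI_pr, mul_comm (LPI_S K' g' _), ← LPI_pr, ← Finset.sum_sub_distrib]
      have h4 := mul_nonneg (by norm_num : (0 : ℝ) ≤ 1 / 2) h3
      rw [Finset.mul_sum] at h4
      refine h4.trans_eq (Finset.sum_congr rfl fun p _ => ?_)
      ring
    · have h1 := hkey [(x, 0), (y, 0)]
      have h2 := hkey [(x, 1), (y, 1)]
      simp only [List.map_cons, List.map_nil, List.prod_cons, List.prod_nil, mul_one, LPI_q, LPI_t] at h1 h2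
      have h3 := add_nonneg h1 h2
      rw [← Finset.sum_add_distrib] at h3
      rw [← LPI_pr, mul_comm (LPI_S K' g' _), ← LPI_pr, ← Finset.sum_add_distrib]
      have h4 := mul_nonneg (by norm_num : (0 : ℝ) ≤ 1 / 2) h3
      rw [Finset.mul_sum] at h4
      refine h4.trans_eq (Finset.sum_congr rfl fun p _ => ?_)
      ring
  · intro x y z
    unfold c2
    simp only [LPI_ex]
    have e0 : ∀ (σ : V → Bool), CU.sg (σ x) * CU.sg (σ y) =
        (CU.sg (σ z) * CU.sg (σ x)) * (CU.sg (σ z) * CU.sg (σ y)) := by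
      intro σ
      have := LPI_sq (σ z)
      calc CU.sg (σ x) * CU.sg (σ y) = 1 * (CU.sg (σ x) * CU.sg (σ y)) := (one_mul _).symm
        _ = CU.sg (σ z) * CU.sg (σ z) * (CU.sg (σ x) * CU.sg (σ y)) := by rw [this]
        _ = _ := by ring
    have k1 : 0 ≤ LPI_S K g (fun σ => CU.sg (σ x) * CU.sg (σ y)) * LPI_S K' g' (fun _ => 1) -
        LPI_S K g (fun _ => 1) * LPI_S K' g' (fun σ => CU.sg (σ x) * CU.sg (σ y)) +
        LPI_S K g (fun σ => CU.sg (σ z) * CU.sg (σ x)) * LPI_S K' g' (fun σ => CU.sg (σ z) * CU.sg (σ y)) -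
        LPI_S K g (fun σ => CU.sg (σ z) * CU.sg (σ y)) * LPI_S K' g' (fun σ => CU.sg (σ z) * CU.sg (σ x)) := by
      have h1 := hkey [(z, 0), (x, 1), (z, 0), (y, 0)]
      have h2 := hkey [(z, 0), (x, 1), (z, 1), (y, 1)]
      have h3 := hkey [(z, 1), (x, 0), (z, 0), (y, 0)]
      have h4 := hkey [(z, 1), (x, 0), (z, 1), (y, 1)]
      simp only [List.map_cons, List.map_nil, List.prod_cons, List.prod_nil, mul_one, LPI_q, LPI_t] at h1 h2 h3 h4
      have h5 := add_nonneg (add_nonneg h1 h2) (add_nonneg h3 h4)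
      rw [← Finset.sum_add_distrib, ← Finset.sum_add_distrib, ← Finset.sum_add_distrib] at h5
      have h6 := mul_nonneg (by norm_num : (0 : ℝ) ≤ 1 / 4) h5
      rw [Finset.mul_sum] at h6
      rw [← LPI_pr, ← LPI_pr, ← LPI_pr, ← LPI_pr, ← Finset.sum_sub_distrib, ← Finset.sum_add_distrib,
        ← Finset.sum_sub_distrib]
      refine h6.trans_eq (Finset.sum_congr rfl fun p _ => ?_)
      rw [e0 p.1, e0 p.2]
      ring
    have k2 : 0 ≤ LPI_S K g (fun σ => CU.sg (σ x) * CU.sg (σ y)) * LPI_S K' g' (fun _ => 1) -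
        LPI_S K g (fun _ => 1) * LPI_S K' g' (fun σ => CU.sg (σ x) * CU.sg (σ y)) -
        LPI_S K g (fun σ => CU.sg (σ z) * CU.sg (σ x)) * LPI_S K' g' (fun σ => CU.sg (σ z) * CU.sg (σ y)) +
        LPI_S K g (fun σ => CU.sg (σ z) * CU.sg (σ y)) * LPI_S K' g' (fun σ => CU.sg (σ z) * CU.sg (σ x)) := by
      have h1 := hkey [(z, 0), (x, 0), (z, 0), (y, 1)]
      have h2 := hkey [(z, 0), (x, 0), (z, 1), (y, 0)]
      have h3 := hkey [(z, 1), (x, 1), (z, 0), (y, 1)]
      have h4 := hkey [(z, 1), (x, 1), (z, 1), (y, 0)]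
      simp only [List.map_cons, List.map_nil, List.prod_cons, List.prod_nil, mul_one, LPI_q, LPI_t] at h1 h2 h3 h4
      have h5 := add_nonneg (add_nonneg h1 h2) (add_nonneg h3 h4)
      rw [← Finset.sum_add_distrib, ← Finset.sum_add_distrib, ← Finset.sum_add_distrib] at h5
      have h6 := mul_nonneg (by norm_num : (0 : ℝ) ≤ 1 / 4) h5
      rw [Finset.mul_sum] at h6
      rw [← LPI_pr, ← LPI_pr, ← LPI_pr, ← LPI_pr, ← Finset.sum_sub_distrib, ← Finset.sum_sub_distrib,
        ← Finset.sum_add_distrib]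
      refine h6.trans_eq (Finset.sum_congr rfl fun p _ => ?_)
      rw [e0 p.1, e0 p.2]
      ring
    generalize LPI_S K g (fun σ => CU.sg (σ x) * CU.sg (σ y)) = U at *
    generalize LPI_S K' g' (fun σ => CU.sg (σ x) * CU.sg (σ y)) = U' at *
    generalize LPI_S K g (fun σ => CU.sg (σ z) * CU.sg (σ x)) = A at *
    generalize LPI_S K g (fun σ => CU.sg (σ z) * CU.sg (σ y)) = B at *
    generalize LPI_S K' g' (fun σ => CU.sg (σ z) * CU.sg (σ x)) = A' at *
    generalize LPI_S K' g' (fun σ => CU.sg (σ z) * CU.sg (σ y)) = B' at *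
    generalize LPI_S K g (fun _ => 1) = Z at *
    generalize LPI_S K' g' (fun _ => 1) = Z' at *
    have e1 : A / Z * (B' / Z') - A' / Z' * (B / Z) = (A * B' - B * A') / (Z * Z') := by
      field_simp
    have e2 : U / Z - U' / Z' = (U * Z' - Z * U') / (Z * Z') := by
      field_simp
    rw [e1, e2, abs_div, abs_of_pos (mul_pos hZ hZ')]
    refine div_le_div_of_nonneg_right ?_ (mul_pos hZ hZ').le
    rw [abs_le]
    constructor <;> linarith

end CO
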